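import Pool.Agent.Lib.MP_1a4724_pr.F04

/-!
# Exponential mixing of the projected stationary contact process on graphs of bounded degree

Q1 of MP_1a4724_pr is true.  The contact process is given by its graphical representation
(`Pool/Agent/Lib/MP_1a4724_pr/Defs.lean`).

Idea.  Elementary updates preserve a downward FKG type property (the conditional law given zeros
on `C` decreases with `C`), so the worst history on `Δ` is the healthy one, and the emptiness
function of `Δ` is log-convex; by comparison with a half line, whatever the history on `Δ` is, some
vertex of `Δ` is infected one time unit later with probability bounded below.  Attempts of infected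
vertices along self-avoiding paths which end in a common geodesic ray, forward in time from `Δ` and
backward from the target, succeed with exponentially small exceptional probability, and planarity
on the ray connects the two.  The one-dimensional estimates for every rate above the critical value
of the half line follow from the positivity of the edge speed and one percolation estimate for
strips.
-/

open MeasureTheory Set

namespace Pool.Agent.Results.MP_1a4724_pr.ExponentialMixing

open CPM

/-- Let `G` be an infinite connected graph of bounded degree and let `lam` be larger than the
critical value of the contact process on the half line.  Graphical representations of the contact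
process on `G` with rate `lam` exist, and for every `ε > 0` there are constants `α, C, c > 0` such that
for each of them `d_Δ(t) ≤ C |Δ| exp (-c t)` for all finite `Δ` and all `t ≥ α diam Δ (1 + ε)`. -/
theorem result (V : Type) [Countable V] [Infinite V] (G : SimpleGraph V) (hG : G.Connected)
    (hdeg : ∃ D : ℕ, ∀ x, (G.neighborSet x).Finite ∧ (G.neighborSet x).ncard ≤ D)
    (lam : ℝ) (hlam : lambdaC < ENNReal.ofReal lam) (ε : ℝ) (hε : 0 < ε) :
    (∃ (Ω : Type) (_ : MeasurableSpace Ω) (P : Measure Ω) (M : Ω → V × V → Set ℝ),
      IsPoisson P M (cRate lam)) ∧
    ∃ α C c : ℝ, 0 < α ∧ 0 < C ∧ 0 < c ∧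
      ∀ (Ω : Type) [MeasurableSpace Ω] (P : Measure Ω) (M : Ω → V × V → Set ℝ),
        IsPoisson P M (cRate lam) → ∀ (Δ : Finset V) (t : ℝ), 0 ≤ t →
          α * (fdiam G Δ : ℝ) * (1 + ε) ≤ t →
          mixCoeff P G.Adj M (Δ : Set V) t ≤ C * (Δ.card : ℝ) * Real.exp (-c * t) := by
  refine ⟨exists_poisson (V × V) (cRate lam) ?_, main V G ‹_› ‹_› hG hdeg lam hlam ε hε⟩
  intro e
  have h0 : 0 < lam := by
    by_contra hle
    rw [ENNReal.ofReal_of_nonpos (not_lt.mp hle)] at hlam
    exact (not_lt_zero hlam)
  unfold cRate
  split_ifs
  · norm_num
  · exact h0.le

end Pool.Agent.Results.MP_1a4724_pr.ExponentialMixing
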